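import Pool.Agent.Y692.S2.Base

/-! Stage 6 (`Pool.Agent.Y5.S2`): from the modes to the Fourier coefficients (tasks EX6, REG6). -/

open Set Filter Topology MeasureTheory

set_option autoImplicit false

namespace Pool.Agent.Y692.S2

open Pool.Agent.Y5 Pool.Agent.Y5.D Pool.Agent.Y5.E Pool.Agent.Y5.F Pool.Agent.Y5.S2
open Pool.Agent.Y6.N (lin Dm)
open Pool.Agent.Y274.NE (Bs coef_rap good_of_rap syn_ot rap_syn pair_syn_e rap_e expand exists_mu
  wpar wsum_a wsum_k sum_w sob_eq t_FLD2 sq_of_rap pair_syn bil_syn sum_of_dec syn_norm summable_L5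
  supp_finite e_le)
open Pool.Agent.Y275.ND (syn)

section gen

variable {J : Type} {g : J → ℕ} {L M' : ℕ → ℝ} {e : Ix J → Fam}

/-- the Dirichlet form of a synthesised family -/
lemma lp_syn (h : Bs g L M' e) {z : Ix J → ℝ}
    (hz : Summable (fun a => |z a| * M' (gr g a))) (i : Ix J) :
    lp (syn e z) (e i) = ∑' b, z b * lp (e b) (e i) := by
  classical
  set W : Fam := fun k => ‖vec k‖ ^ 2 • e i k with hW
  have hlp : ∀ V : Fam, lp V (e i) = (2 * Real.pi) ^ 2 * pair W V := by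
    intro V
    unfold Pool.Agent.Y5.S2.lp pair
    congr 1
    refine tsum_congr fun k => ?_
    rw [hW]
    simp only
    rw [inner_smul_left, real_inner_comm]
    simp
  obtain ⟨Cw, hCw⟩ : ∃ Cw, ∀ k, ‖W k‖ ≤ Cw := by
    obtain ⟨Cw, hCw⟩ := rap_e h i 2
    refine ⟨Cw, fun k => ?_⟩
    rw [hW]
    simp only
    rw [norm_smul, Real.norm_eq_abs, abs_of_nonneg (by positivity)]
    exact hCw k
  rw [hlp, pair_syn h hz W Cw hCw, ← tsum_mul_left]
  refine tsum_congr fun b => ?_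
  rw [hlp]
  ring

end gen

theorem t_EX6 : S_EX6 := by
  intro J g σ τ ν κ μ lam Λ M A Q F L C ℓ N G B e hA hc hS hK T z hT hsol
  obtain ⟨M', h⟩ := bs_of hc hS hK
  have hL1 := L_one hS
  have hreg := hsol.rapid
  set y : Ix J → ℝ → ℝ := fun a t => A * z a t with hy
  -- decay of the coefficients
  have hdec : ∀ T' < T, ∀ k : ℕ, ∃ Mk, ∀ t ∈ Icc 0 T', ∀ a, L (gr g a) ^ k * |y a t| ≤ Mk := by
    intro T' hT' k
    obtain ⟨Mk, hMk⟩ := hreg k T' hT'
    refine ⟨A * √Mk, fun t ht a => ?_⟩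
    obtain ⟨h1, h2⟩ := hMk t ht
    have h3 := h1.le_tsum a (fun _ _ => sq_nonneg _)
    have h4 : (L (gr g a) ^ k * z a t) ^ 2 ≤ Mk := h3.trans h2
    have h5 := Real.abs_le_sqrt h4
    rw [abs_mul, abs_of_nonneg (pow_nonneg (by linarith [hL1 (gr g a)]) k)] at h5
    rw [hy]
    simp only
    rw [abs_mul, abs_of_pos hA]
    calc L (gr g a) ^ k * (A * |z a t|) = A * (L (gr g a) ^ k * |z a t|) := by ring
      _ ≤ A * √Mk := mul_le_mul_of_nonneg_left h5 hA.le
  have hrapz : ∀ t ∈ Ico 0 T, ∀ p : ℕ, ∃ Cp, ∀ a, L (gr g a) ^ p * |y a t| ≤ Cp := by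
    intro t ht p
    obtain ⟨Mk, hMk⟩ := hdec t ht.2 p
    exact ⟨Mk, hMk t ⟨ht.1, le_rfl⟩⟩
  have hgood : ∀ t ∈ Ico 0 T, Summable (fun a => |y a t| * M' (gr g a)) :=
    fun t ht => good_of_rap h (hrapz t ht)
  set V : ℝ → Fam := fun t => syn e (fun a => y a t) with hVdef
  have hVb : ∀ m : ℕ, ∀ T' < T, ∃ Mb, ∀ t ∈ Icc 0 T', ∀ k, ‖vec k‖ ^ m * ‖V t k‖ ≤ Mb := by
    intro m T' hT'
    obtain ⟨Mk, hMk⟩ := hdec T' hT' (4 * (m + 1) + 5)
    refine ⟨Mk * M' 0 ^ (m + 1) * ∑' a : Ix J, 1 / L (gr g a) ^ 5, fun t ht k => ?_⟩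
    have ht' : t ∈ Ico 0 T := ⟨ht.1, lt_of_le_of_lt ht.2 hT'⟩
    have h1 := sum_of_dec h (m + 1) Mk (fun a => y a t) (hMk t ht)
    exact (syn_norm h m (hgood t ht') h1.1 k).trans h1.2
  have hVot : ∀ t ∈ Ico 0 T, OT (V t) := fun t ht => syn_ot h (hgood t ht)
  have hpz : ∀ t ∈ Ico 0 T, ∀ a, pair (V t) (e a) = y a t :=
    fun t ht a => pair_syn_e h (hgood t ht) a
  have hsy : (fun t => sy e (fun a => A * z a t)) = V := rfl
  refine ⟨?_, hpz⟩
  rw [hsy]
  refine ⟨hVot, hVb, ?_⟩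
  intro i t ht
  have h1 := (hsol.deriv i t ht).const_mul A
  have h2 : HasDerivWithinAt (fun τ => pair (V τ) (e i))
      (A * (Az Q κ L g σ τ (fun a => z a t) i - lin (Dm ν e) (fun a => z a t) i +
        bl (fun j a b => A * bil (e a) (e b) (e j)) (fun a => z a t) (fun a => z a t) i))
      (Ico 0 T) t :=
    h1.congr (fun τ hτ => hpz τ hτ i) (hpz t ht i)
  refine h2.congr_deriv ?_
  have hskew : A * Az Q κ L g σ τ (fun a => z a t) i =
      s2 Q κ L g τ i * pair (V t) (e (σ2 σ i)) := by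
    rw [hpz t ht]
    cases i with
    | inl n =>
      show A * 0 = 0 * _
      ring
    | inr j =>
      show A * (Om Q κ L (g j / 2) * τ j * z (Sum.inr (σ j)) t) =
        Om Q κ L (g j / 2) * τ j * (A * z (Sum.inr (σ j)) t)
      ring
  have hlin : A * lin (Dm ν e) (fun a => z a t) i = ν * lp (V t) (e i) := by
    rw [hVdef]
    simp only
    rw [lp_syn h (hgood t ht)]
    unfold lin
    rw [← tsum_mul_left, ← tsum_mul_left]
    refine tsum_congr fun b => ?_
    unfold Dm Pool.Agent.Y5.S2.lp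
    rw [hy]
    simp only
    have h3 : ∑' k : Z3, ‖vec k‖ ^ 2 * inner ℝ (e i k) (e b k) =
        ∑' k : Z3, ‖vec k‖ ^ 2 * inner ℝ (e b k) (e i k) :=
      tsum_congr fun k => by rw [real_inner_comm]
    rw [h3]
    ring
  have hbil : A * bl (fun j a b => A * bil (e a) (e b) (e j)) (fun a => z a t) (fun a => z a t) i =
      bil (V t) (V t) (e i) := by
    rw [hVdef]
    simp only
    rw [← bil_syn h (hgood t ht) i]
    unfold bl
    rw [← tsum_mul_left]
    refine tsum_congr fun p => ?_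
    rw [hy]
    simp only
    ring
  rw [mul_add, mul_sub, hskew, hlin, hbil]

/-- Bessel's inequality -/
lemma bessel {I : Type} (e : I → Fam) (hfin : ∀ a, {k | e a k ≠ 0}.Finite)
    (horth : ∀ a b, (a = b → pair (e a) (e b) = 1) ∧ (a ≠ b → pair (e a) (e b) = 0)) (U : Fam)
    (hU : Summable (fun k => ‖U k‖ ^ 2)) (s : Finset I) :
    ∑ a ∈ s, pair U (e a) ^ 2 ≤ ∑' k, ‖U k‖ ^ 2 := by
  classical
  have hfs : ∀ (W : Fam) (b : I), Summable (fun k => inner ℝ (W k) (e b k)) := by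
    intro W b
    apply summable_of_hasFiniteSupport
    refine (hfin b).subset ?_
    intro k hk
    simp only [Function.mem_support, ne_eq] at hk
    intro h0
    apply hk
    rw [h0, inner_zero_right]
  set Y : Fam := fun k => ∑ a ∈ s, pair U (e a) • e a k with hY
  have h1 : ∀ k, ‖U k - Y k‖ ^ 2 = ‖U k‖ ^ 2 - 2 * inner ℝ (U k) (Y k) + inner ℝ (Y k) (Y k) := by
    intro k
    rw [norm_sub_sq_real, real_inner_self_eq_norm_sq]
  have h2 : ∀ (W : Fam), Summable (fun k => inner ℝ (W k) (Y k)) ∧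
      ∑' k, inner ℝ (W k) (Y k) = ∑ a ∈ s, pair U (e a) * pair W (e a) := by
    intro W
    have e1 : ∀ k, inner ℝ (W k) (Y k) = ∑ a ∈ s, pair U (e a) * inner ℝ (W k) (e a k) := by
      intro k
      rw [hY]
      simp only
      rw [inner_sum]
      refine Finset.sum_congr rfl fun a _ => ?_
      rw [inner_smul_right]
    have h3 : ∀ a ∈ s, Summable (fun k => pair U (e a) * inner ℝ (W k) (e a k)) :=
      fun a _ => (hfs W a).mul_left _
    refine ⟨(summable_sum h3).congr fun k => (e1 k).symm, ?_⟩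
    rw [tsum_congr e1, Summable.tsum_finsetSum h3]
    refine Finset.sum_congr rfl fun a _ => ?_
    rw [tsum_mul_left]
    rfl
  have h4 : ∑' k, inner ℝ (Y k) (Y k) = ∑ a ∈ s, pair U (e a) ^ 2 := by
    rw [(h2 Y).2]
    refine Finset.sum_congr rfl fun a ha => ?_
    have h5 : pair Y (e a) = pair U (e a) := by
      have h6 := (h2 (e a)).2
      have h7 : pair Y (e a) = ∑' k, inner ℝ (e a k) (Y k) := by
        unfold pair
        exact tsum_congr fun k => real_inner_comm _ _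
      rw [h7, h6, Finset.sum_eq_single a]
      · rw [(horth a a).1 rfl, mul_one]
      · intro b _ hb
        rw [(horth a b).2 (Ne.symm hb), mul_zero]
      · intro h8
        exact absurd ha h8
    rw [h5, sq]
  have h5 : ∑' k, inner ℝ (U k) (Y k) = ∑ a ∈ s, pair U (e a) ^ 2 := by
    rw [(h2 U).2]
    refine Finset.sum_congr rfl fun a _ => ?_
    rw [sq]
  have h6 : 0 ≤ ∑' k, ‖U k - Y k‖ ^ 2 := tsum_nonneg fun k => sq_nonneg _
  rw [tsum_congr h1, Summable.tsum_add (hU.sub ((h2 U).1.mul_left 2)) (h2 Y).1,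
    Summable.tsum_sub hU ((h2 U).1.mul_left 2), tsum_mul_left, h4, h5] at h6
  linarith

theorem t_REG6 : S_REG6 := by
  classical
  intro J g σ τ ν κ μ lam Λ M F L C ℓ N G B e hc hS
  obtain ⟨D3, hD3, hLF⟩ := hc.L_F
  obtain ⟨D4, hD4, hcmp⟩ := hc.F_cmp
  have hL1 := L_one hS
  have hfin : ∀ a, {k | e a k ≠ 0}.Finite := fun a =>
    (Pool.Agent.Y275.ND.finite_ball (F (gr g a))).subset (fun k hk => (hc.fsupp a k hk).2)
  -- the group weights
  set ω : Z3 → ℝ := fun k => if hk : ∃ a, e a k ≠ 0 then L (gr g hk.choose) else 0 with hω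
  have hω1 : ∀ a k, e a k ≠ 0 → ω k = L (gr g a) := by
    intro a k hk
    have h1 : ∃ a, e a k ≠ 0 := ⟨a, hk⟩
    rw [hω]
    simp only [h1, dif_pos]
    rw [hc.disj _ _ k h1.choose_spec hk]
  have hω0 : ∀ k, (∀ a, e a k = 0) → ω k = 0 := by
    intro k hk
    have h1 : ¬ ∃ a, e a k ≠ 0 := by push Not; exact hk
    rw [hω]
    simp only [h1, dif_neg, not_false_eq_true]
  -- the weights are bounded
  set D : ℝ := D3 * D4 ^ (5 / 2 : ℝ) with hD
  have hD0 : 0 ≤ D := by positivity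
  have hωle : ∀ k, 0 ≤ ω k ∧ ω k ≤ D * ‖vec k‖ ^ 3 := by
    intro k
    by_cases hk : ∃ a, e a k ≠ 0
    · obtain ⟨a, ha⟩ := hk
      rw [hω1 a k ha]
      refine ⟨by linarith [hL1 (gr g a)], ?_⟩
      have h1 := hLF (gr g a)
      have h2 := hcmp a k ha
      have h3 := (hc.fsupp a k ha).1
      have h4 := F_one hc (gr g a)
      calc L (gr g a) ≤ D3 * F (gr g a) ^ (5 / 2 : ℝ) := h1
        _ ≤ D3 * (D4 * ‖vec k‖) ^ (5 / 2 : ℝ) := by
            gcongr
        _ = D3 * (D4 ^ (5 / 2 : ℝ) * ‖vec k‖ ^ (5 / 2 : ℝ)) := by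
            rw [Real.mul_rpow hD4.le (norm_nonneg _)]
        _ ≤ D3 * (D4 ^ (5 / 2 : ℝ) * ‖vec k‖ ^ (3 : ℝ)) := by
            gcongr
            norm_num
        _ = D * ‖vec k‖ ^ 3 := by
            have : ‖vec k‖ ^ (3 : ℝ) = ‖vec k‖ ^ 3 := by
              rw [← Real.rpow_natCast]; norm_num
            rw [this, hD]; ring
    · push Not at hk
      rw [hω0 k hk]
      exact ⟨le_rfl, by positivity⟩
  -- a summable majorant
  set q : Z3 → ℝ := fun k => if k = 0 then 0 else (1 / (1 + ‖vec k‖) ^ 6) with hq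
  have hqs : Summable q := by
    have h1 : Summable (fun k : Z3 => ‖q k‖) := by
      apply Pool.Agent.Y691.ND.F.sum_rap
      refine ⟨1, fun k => ?_⟩
      rw [hq]
      simp only
      split_ifs
      · simp
      · rw [Real.norm_eq_abs, abs_of_nonneg (by positivity)]
        have : (0 : ℝ) < (1 + ‖vec k‖) ^ 6 := by positivity
        rw [mul_one_div, div_self this.ne']
    exact h1.of_norm
  refine ⟨6, D ^ 2 * 64 * ∑' k, q k, fun V K hV0 _ hK => ?_⟩
  have hK0 : 0 ≤ K := (mul_nonneg (pow_nonneg (norm_nonneg _) _) (norm_nonneg _)).trans (hK 0)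
  set U : Fam := fun k => ω k • V k with hUdef
  have hV00 : V 0 = 0 := by
    have h1 := hV0.odd 0
    rw [neg_zero] at h1
    have h2 : (2 : ℝ) • V 0 = 0 := by
      rw [two_smul]
      nth_rewrite 1 [h1]
      exact neg_add_cancel _
    exact (smul_eq_zero.1 h2).resolve_left two_ne_zero
  have hvec1 : ∀ k : Z3, k ≠ 0 → 1 ≤ ‖vec k‖ := by
    intro k hk
    obtain ⟨i, hi⟩ : ∃ i, k i ≠ 0 := by
      by_contra hcon
      push Not at hcon
      exact hk (funext hcon)
    have h1 : ‖(vec k) i‖ ≤ ‖vec k‖ := PiLp.norm_apply_le (vec k) i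
    have h2 : (vec k) i = (k i : ℝ) := rfl
    rw [h2, Real.norm_eq_abs] at h1
    refine le_trans ?_ h1
    have h3 : (1 : ℤ) ≤ |k i| := Int.one_le_abs hi
    exact_mod_cast h3
  have hUle : ∀ k, ‖U k‖ ^ 2 ≤ D ^ 2 * 64 * K ^ 2 * q k := by
    intro k
    rw [hUdef]
    simp only
    rw [norm_smul, Real.norm_eq_abs, abs_of_nonneg (hωle k).1]
    by_cases hk : k = 0
    · rw [hk, hV00, norm_zero, mul_zero]
      rw [hq]
      simp
    · have h1 := hvec1 k hk
      have h2 := hK k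
      have h3 := (hωle k).2
      have h4 : q k = 1 / (1 + ‖vec k‖) ^ 6 := by
        rw [hq]
        simp only [if_neg hk]
      rw [h4]
      have h5 : (1 + ‖vec k‖) ^ 6 ≤ 64 * ‖vec k‖ ^ 6 := by
        calc (1 + ‖vec k‖) ^ 6 ≤ (2 * ‖vec k‖) ^ 6 :=
              pow_le_pow_left₀ (by positivity) (by linarith) 6
          _ = 64 * ‖vec k‖ ^ 6 := by ring
      have h6 : (0 : ℝ) < (1 + ‖vec k‖) ^ 6 := by positivity
      rw [mul_one_div, le_div_iff₀ h6]
      calc (ω k * ‖V k‖) ^ 2 * (1 + ‖vec k‖) ^ 6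
          ≤ (D * ‖vec k‖ ^ 3 * ‖V k‖) ^ 2 * (64 * ‖vec k‖ ^ 6) := by
            refine mul_le_mul ?_ h5 h6.le (by positivity)
            refine pow_le_pow_left₀ (mul_nonneg (hωle k).1 (norm_nonneg _)) ?_ 2
            exact mul_le_mul_of_nonneg_right h3 (norm_nonneg _)
        _ = D ^ 2 * 64 * (‖vec k‖ ^ 6 * ‖V k‖) ^ 2 := by ring
        _ ≤ D ^ 2 * 64 * K ^ 2 := by
            refine mul_le_mul_of_nonneg_left ?_ (by positivity)
            exact pow_le_pow_left₀ (by positivity) h2 2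
  have hUs : Summable (fun k => ‖U k‖ ^ 2) :=
    Summable.of_nonneg_of_le (fun k => sq_nonneg _) hUle (hqs.mul_left _)
  have hpair : ∀ a, pair U (e a) = L (gr g a) * pair V (e a) := by
    intro a
    unfold pair
    rw [← tsum_mul_left]
    refine tsum_congr fun k => ?_
    rw [hUdef]
    simp only
    rw [inner_smul_left]
    by_cases hk : e a k = 0
    · rw [hk]
      simp
    · rw [hω1 a k hk]
      simp
  unfold nk
  have hX0 : 0 ≤ D ^ 2 * 64 * (∑' k, q k) * K ^ 2 := by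
    have : 0 ≤ ∑' k, q k := tsum_nonneg fun k => by
      rw [hq]
      simp only
      split_ifs
      · exact le_rfl
      · positivity
    positivity
  refine tsum_le_of_sum_le' hX0 fun s => ?_
  have e1 : ∀ a, (rI L g a ^ 1 * pair V (e a)) ^ 2 = pair U (e a) ^ 2 := by
    intro a
    rw [hpair, pow_one]
    rfl
  rw [Finset.sum_congr rfl fun a _ => e1 a]
  refine (bessel e hfin hc.orth U hUs s).trans ?_
  refine (hUs.tsum_le_tsum hUle (hqs.mul_left _)).trans (le_of_eq ?_)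
  rw [tsum_mul_left]
  ring

end Pool.Agent.Y692.S2
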