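import Pool.Agent.Y692.S2.Base

/-! Stage 6 (`Pool.Agent.Y5.S2`): the skew term is of order 2 (task ORD6). -/

open Set Filter Topology MeasureTheory

set_option autoImplicit false

namespace Pool.Agent.Y692.S2

open Pool.Agent.Y5 Pool.Agent.Y5.D Pool.Agent.Y5.E Pool.Agent.Y5.F Pool.Agent.Y5.S2
open Pool.Agent.Y274.NE (Bs coef_rap good_of_rap syn_ot rap_syn pair_syn_e rap_e expand exists_mu
  wpar wsum_a wsum_k sum_w sob_eq t_FLD2 sq_of_rap)
open Pool.Agent.Y275.ND (syn)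

/-- Cauchy-Schwarz for series -/
lemma cs {ι : Type} (f g : ι → ℝ) (hf0 : ∀ i, 0 ≤ f i) (hg0 : ∀ i, 0 ≤ g i)
    (hf : Summable fun i => f i ^ 2) (hg : Summable fun i => g i ^ 2) :
    Summable (fun i => f i * g i) ∧
      ∑' i, f i * g i ≤ √(∑' i, f i ^ 2) * √(∑' i, g i ^ 2) := by
  have key : ∀ s : Finset ι, ∑ i ∈ s, f i * g i ≤ √(∑' i, f i ^ 2) * √(∑' i, g i ^ 2) := by
    intro s
    rw [← Real.sqrt_mul (tsum_nonneg fun _ => sq_nonneg _)]
    apply Real.le_sqrt_of_sq_le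
    refine (Finset.sum_mul_sq_le_sq_mul_sq s f g).trans ?_
    exact mul_le_mul (hf.sum_le_tsum s fun _ _ => sq_nonneg _)
      (hg.sum_le_tsum s fun _ _ => sq_nonneg _) (Finset.sum_nonneg fun _ _ => sq_nonneg _)
      (tsum_nonneg fun _ => sq_nonneg _)
  have h1 : Summable (fun i => f i * g i) :=
    summable_of_sum_le (fun i => mul_nonneg (hf0 i) (hg0 i)) key
  exact ⟨h1, h1.tsum_le_of_sum_le key⟩

section conc

variable {J : Type} {ν κ μ lam Λ M Q : ℝ} {g : J → ℕ} {σ : J → J} {τ : J → ℝ}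
  {F L C ℓ N G : ℕ → ℝ} {B : ℕ → ℕ → ℝ} {e : Ix J → Fam} {c : Ix J → Ix J → Ix J → ℝ}

lemma KL_mono (hS : Sq6 κ μ lam Λ M L C ℓ B) {m n : ℕ} (h : m ≤ n) :
    κ ^ m * L m ≤ κ ^ n * L n := by
  induction n, h using Nat.le_induction with
  | base => exact le_rfl
  | succ n _ ih =>
    refine ih.trans ?_
    rw [KL_succ hS]
    have h1 := mu_one hS
    have h2 := KL_one hS n
    nlinarith

lemma σ2_inv (hr : Rot2 g σ τ) (i : Ix J) : σ2 σ (σ2 σ i) = i := by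
  cases i with
  | inl n => rfl
  | inr j =>
    simp only [σ2]
    rw [hr.inv]

lemma gr_σ2 (hr : Rot2 g σ τ) (i : Ix J) : gr g (σ2 σ i) / 2 = gr g i / 2 := by
  cases i with
  | inl n => rfl
  | inr j => exact hr.grp j

lemma s2_skew (hr : Rot2 g σ τ) (i : Ix J) : s2 Q κ L g τ (σ2 σ i) = -s2 Q κ L g τ i := by
  cases i with
  | inl n =>
    show (0 : ℝ) = -0
    rw [neg_zero]
  | inr j =>
    show Om Q κ L (g (σ j) / 2) * τ (σ j) = -(Om Q κ L (g j / 2) * τ j)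
    rw [hr.grp, hr.skew]
    ring

lemma s2_le (hS : Sq6 κ μ lam Λ M L C ℓ B) (hr : Rot2 g σ τ) (hQ : 0 < Q) (i : Ix J) :
    |s2 Q κ L g τ i| ≤ Q * (κ ^ gr g i * L (gr g i)) := by
  cases i with
  | inl n =>
    show |(0 : ℝ)| ≤ _
    rw [abs_zero]
    have := KL_one hS (gr g (Sum.inl n : Ix J))
    have h1 : (0 : ℝ) ≤ κ ^ gr g (Sum.inl n : Ix J) * L (gr g (Sum.inl n : Ix J)) := by linarith
    positivity
  | inr j =>
    show |Om Q κ L (g j / 2) * τ j| ≤ Q * (κ ^ g j * L (g j))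
    have h1 : |τ j| = 1 := by
      have h2 := hr.unit j
      rw [← sq_abs] at h2
      nlinarith [abs_nonneg (τ j)]
    rw [abs_mul, h1, mul_one]
    unfold Om
    have h2 := KL_one hS (2 * (g j / 2))
    have h3 : (0 : ℝ) ≤ κ ^ (2 * (g j / 2)) * L (2 * (g j / 2)) := by linarith
    rw [abs_of_nonneg (by positivity)]
    exact mul_le_mul_of_nonneg_left (KL_mono hS (by omega)) hQ.le

/-- the weights of paired modes are comparable -/
lemma KL_pair (hS : Sq6 κ μ lam Λ M L C ℓ B) (hr : Rot2 g σ τ) (i : Ix J) :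
    κ ^ gr g i * L (gr g i) ≤ μ * (κ ^ gr g (σ2 σ i) * L (gr g (σ2 σ i))) := by
  have h1 := gr_σ2 hr i
  have h2 : gr g i ≤ 2 * (gr g i / 2) + 1 := by omega
  have h3 : 2 * (gr g i / 2) ≤ gr g (σ2 σ i) := by omega
  have h4 := KL_mono hS h2
  rw [KL_succ hS] at h4
  refine h4.trans ?_
  exact mul_le_mul_of_nonneg_left (KL_mono hS h3) (by linarith [mu_one hS])

lemma KL_pow (hS : Sq6 κ μ lam Λ M L C ℓ B) (p : ℕ) :
    ∃ (D : ℝ) (q : ℕ), ∀ n, |(κ ^ n * L n) ^ p| ≤ D * L n ^ q := by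
  refine ⟨1, p, fun n => ?_⟩
  have h1 := KL_one hS n
  rw [one_mul, abs_of_nonneg (by positivity)]
  exact pow_le_pow_left₀ (by linarith) (KL_le hS n) p

/-- the weights and the frequencies -/
lemma KL_vec (hc : Conc6 ν κ μ lam g σ τ F L ℓ N G e) : ∃ D : ℝ, 0 < D ∧ ∀ a k, e a k ≠ 0 →
    κ ^ gr g a * L (gr g a) ≤ D * ‖vec k‖ ^ 2 ∧ ‖vec k‖ ^ 2 ≤ D * (κ ^ gr g a * L (gr g a)) := by
  obtain ⟨D1, hD1, h1⟩ := hc.S_F
  obtain ⟨D2, hD2, h2⟩ := hc.F_S
  obtain ⟨D3, hD3, h3⟩ := hc.F_cmp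
  refine ⟨D1 * D3 ^ 2 + D2, by positivity, fun a k hk => ?_⟩
  have h4 := h1 (gr g a)
  have h5 := h2 (gr g a)
  have h6 := h3 a k hk
  have h7 := hc.fsupp a k hk
  have hF : 0 ≤ F (gr g a) := by linarith [h7.1, h7.2]
  have h8 : F (gr g a) ^ 2 ≤ D3 ^ 2 * ‖vec k‖ ^ 2 := by
    rw [← mul_pow]
    exact pow_le_pow_left₀ hF h6 2
  have h9 : ‖vec k‖ ^ 2 ≤ F (gr g a) ^ 2 := pow_le_pow_left₀ (norm_nonneg _) h7.2 2
  constructor
  · calc κ ^ gr g a * L (gr g a) ≤ D1 * F (gr g a) ^ 2 := h4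
      _ ≤ D1 * (D3 ^ 2 * ‖vec k‖ ^ 2) := mul_le_mul_of_nonneg_left h8 hD1.le
      _ ≤ (D1 * D3 ^ 2 + D2) * ‖vec k‖ ^ 2 := by nlinarith [sq_nonneg ‖vec k‖]
  · have h10 : 0 ≤ κ ^ gr g a * L (gr g a) := by
      have : 0 ≤ D2 * (κ ^ gr g a * L (gr g a)) := (sq_nonneg _).trans h5
      exact nonneg_of_mul_nonneg_right this hD2
    calc ‖vec k‖ ^ 2 ≤ D2 * (κ ^ gr g a * L (gr g a)) := h9.trans h5
      _ ≤ (D1 * D3 ^ 2 + D2) * (κ ^ gr g a * L (gr g a)) := by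
          refine mul_le_mul_of_nonneg_right ?_ h10
          have : 0 ≤ D1 * D3 ^ 2 := by positivity
          linarith

/-- the sums over the modes are bounded by the Sobolev norms -/
lemma sum_le_sob {M' : ℕ → ℝ} (hc : Conc6 ν κ μ lam g σ τ F L ℓ N G e)
    (hS : Sq6 κ μ lam Λ M L C ℓ B) (h : Bs g L M' e) (p : ℕ) :
    ∃ D : ℝ, 0 ≤ D ∧ ∀ V, OT V → Rap V →
      ∑' a, (κ ^ gr g a * L (gr g a)) ^ p * pair V (e a) ^ 2 ≤
        D * ∑' k : Z3, (2 * Real.pi * ‖vec k‖) ^ (2 * (p : ℝ)) * ‖V k‖ ^ 2 := by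
  obtain ⟨D, hD, hDk⟩ := KL_vec hc
  refine ⟨D ^ p, by positivity, fun V hV0 hV => ?_⟩
  have hz := coef_rap h V hV
  obtain ⟨ω, hω, hω0⟩ := exists_mu h (fun n => (κ ^ n * L n) ^ p)
  have h1 := wpar h hz (KL_pow hS p) hω
  rw [← expand h V hV0 hV] at h1
  have h2 := wsum_k h hz (KL_pow hS p) hω
  rw [← expand h V hV0 hV] at h2
  rw [← h1, ← tsum_mul_left]
  refine h2.tsum_le_tsum (fun k => ?_) ((sum_w hV _ (by positivity)).mul_left _)
  rw [← mul_assoc]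
  refine mul_le_mul_of_nonneg_right ?_ (sq_nonneg _)
  by_cases hk : ∃ a, e a k ≠ 0
  · obtain ⟨a, ha⟩ := hk
    rw [hω a k ha]
    have h3 := (hDk a k ha).1
    have h4 := KL_one hS (gr g a)
    have h5 : (2 * Real.pi * ‖vec k‖) ^ (2 * (p : ℝ)) = ((2 * Real.pi * ‖vec k‖) ^ 2) ^ p := by
      rw [← pow_mul, ← Real.rpow_natCast]
      push_cast
      rfl
    rw [h5, ← mul_pow]
    refine pow_le_pow_left₀ (by linarith) (h3.trans ?_) p
    refine mul_le_mul_of_nonneg_left ?_ hD.le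
    refine pow_le_pow_left₀ (norm_nonneg _) ?_ 2
    have := Real.pi_gt_three
    nlinarith [norm_nonneg (vec k)]
  · push Not at hk
    rw [hω0 k hk]
    positivity

/-- the Sobolev norms are bounded by the sums over the modes -/
lemma sob_le_sum {M' : ℕ → ℝ} (hc : Conc6 ν κ μ lam g σ τ F L ℓ N G e)
    (hS : Sq6 κ μ lam Λ M L C ℓ B) (h : Bs g L M' e) (p : ℕ) :
    ∃ D : ℝ, 0 ≤ D ∧ ∀ z : Ix J → ℝ, (∀ q : ℕ, ∃ Cq, ∀ a, L (gr g a) ^ q * |z a| ≤ Cq) →
      ∑' k : Z3, (2 * Real.pi * ‖vec k‖) ^ (2 * (p : ℝ)) * ‖syn e z k‖ ^ 2 ≤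
        D * ∑' a, (κ ^ gr g a * L (gr g a)) ^ p * z a ^ 2 := by
  obtain ⟨D, hD, hDk⟩ := KL_vec hc
  refine ⟨((2 * Real.pi) ^ 2 * D) ^ p, by positivity, fun z hz => ?_⟩
  obtain ⟨ω, hω, hω0⟩ := exists_mu h (fun n => (κ ^ n * L n) ^ p)
  have h1 := wpar h hz (KL_pow hS p) hω
  have h2 := wsum_k h hz (KL_pow hS p) hω
  rw [← h1, ← tsum_mul_left]
  refine (sum_w (rap_syn h hz) _ (by positivity)).tsum_le_tsum (fun k => ?_) (h2.mul_left _)
  rw [← mul_assoc]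
  by_cases hk : ∃ a, e a k ≠ 0
  · obtain ⟨a, ha⟩ := hk
    refine mul_le_mul_of_nonneg_right ?_ (sq_nonneg _)
    rw [hω a k ha]
    have h3 := (hDk a k ha).2
    have h4 := KL_one hS (gr g a)
    have h5 : (2 * Real.pi * ‖vec k‖) ^ (2 * (p : ℝ)) = ((2 * Real.pi * ‖vec k‖) ^ 2) ^ p := by
      rw [← pow_mul, ← Real.rpow_natCast]
      push_cast
      rfl
    rw [h5, ← mul_pow]
    refine pow_le_pow_left₀ (by positivity) ?_ p
    rw [mul_pow, mul_assoc ((2 * Real.pi) ^ 2)]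
    exact mul_le_mul_of_nonneg_left h3 (by positivity)
  · push Not at hk
    have : syn e z k = 0 := by
      unfold syn
      simp [hk]
    rw [this]
    simp

end conc

theorem t_ORD6 : S_ORD6 := by
  intro _ J g σ τ ν κ μ lam Λ M A Q F L C ℓ N G B e hA hQ hc hS hK
  obtain ⟨M', h⟩ := bs_of hc hS hK
  have hF := t_FLD2
  obtain ⟨⟨hip, hcnv, hdir⟩, hcf⟩ := t_FLD2
  have hr := hc.rot
  have hL1 := L_one hS
  have hipV : ∀ V, OT V → Rap V → ∀ a, ip (fieldOf V) (fieldOf (e a)) = pair V (e a) :=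
    fun V hV rV a => hip _ _ hV rV (h.ot a) (rap_e h a)
  let sE : Ix J ≃ Ix J := ⟨σ2 σ, σ2 σ, σ2_inv hr, σ2_inv hr⟩
  have hsabs : ∀ i, |s2 Q κ L g τ (σ2 σ i)| = |s2 Q κ L g τ i| := by
    intro i
    rw [s2_skew hr, abs_neg]
  refine ⟨?_, ?_⟩
  · -- the form
    obtain ⟨D, hD0, hD⟩ := sum_le_sob hc hS h 1
    refine ⟨Q * D, ?_⟩
    rintro v w ⟨V, hV0, hV, rfl⟩ ⟨W, hW0, hW, rfl⟩
    simp only [hipV _ hV0 hV, hipV _ hW0 hW]
    have key : ∀ U : Fam, OT U → Rap U →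
        Summable (fun a => |s2 Q κ L g τ a| * pair U (e a) ^ 2) ∧
        ∑' a, |s2 Q κ L g τ a| * pair U (e a) ^ 2 ≤ Q * D * dir (fieldOf U) := by
      intro U hU0 hU
      have hz := coef_rap h U hU
      have h1 := (wsum_a h hz (KL_pow hS 1)).mul_left Q
      have h2 : ∀ a, |s2 Q κ L g τ a| * pair U (e a) ^ 2 ≤
          Q * ((κ ^ gr g a * L (gr g a)) ^ 1 * pair U (e a) ^ 2) := by
        intro a
        rw [pow_one, ← mul_assoc]
        exact mul_le_mul_of_nonneg_right (s2_le hS hr hQ a) (sq_nonneg _)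
      have h3 : Summable (fun a => |s2 Q κ L g τ a| * pair U (e a) ^ 2) :=
        Summable.of_nonneg_of_le (fun a => by positivity) h2 h1
      refine ⟨h3, ?_⟩
      refine (h3.tsum_le_tsum h2 h1).trans ?_
      rw [tsum_mul_left, mul_assoc]
      refine mul_le_mul_of_nonneg_left ?_ hQ.le
      refine (hD U hU0 hU).trans (le_of_eq ?_)
      have e2 : ∑' k : Z3, (2 * Real.pi * ‖vec k‖) ^ (2 * ((1 : ℕ) : ℝ)) * ‖U k‖ ^ 2 =
          (2 * Real.pi) ^ 2 * ∑' k : Z3, ‖vec k‖ ^ 2 * ‖U k‖ ^ 2 := by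
        rw [← tsum_mul_left]
        refine tsum_congr fun k => ?_
        rw [Nat.cast_one, mul_one]
        have : (2 * Real.pi * ‖vec k‖) ^ (2 : ℝ) = (2 * Real.pi * ‖vec k‖) ^ 2 := by
          rw [← Real.rpow_natCast]
          norm_num
        rw [this, mul_pow]
        ring
      rw [hdir U hU0 hU, e2]
    obtain ⟨kV1, kV2⟩ := key V hV0 hV
    obtain ⟨kW1, kW2⟩ := key W hW0 hW
    -- reindexing
    have hV1 : Summable (fun a => |s2 Q κ L g τ a| * pair V (e (σ2 σ a)) ^ 2) := by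
      have h1 := (sE.summable_iff (f := fun a => |s2 Q κ L g τ a| * pair V (e a) ^ 2)).2 kV1
      refine h1.congr fun a => ?_
      show |s2 Q κ L g τ (σ2 σ a)| * pair V (e (σ2 σ a)) ^ 2 = _
      rw [hsabs]
    have hV2 : ∑' a, |s2 Q κ L g τ a| * pair V (e (σ2 σ a)) ^ 2 =
        ∑' a, |s2 Q κ L g τ a| * pair V (e a) ^ 2 := by
      rw [← sE.tsum_eq (fun a => |s2 Q κ L g τ a| * pair V (e a) ^ 2)]
      refine tsum_congr fun a => ?_
      show _ = |s2 Q κ L g τ (σ2 σ a)| * pair V (e (σ2 σ a)) ^ 2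
      rw [hsabs]
    set f : Ix J → ℝ := fun i => √|s2 Q κ L g τ i| * |pair V (e (σ2 σ i))| with hf
    set f' : Ix J → ℝ := fun i => √|s2 Q κ L g τ i| * |pair W (e i)| with hf'
    have ef : ∀ i, f i ^ 2 = |s2 Q κ L g τ i| * pair V (e (σ2 σ i)) ^ 2 := by
      intro i
      rw [hf]
      simp only
      rw [mul_pow, Real.sq_sqrt (abs_nonneg _), sq_abs]
    have ef' : ∀ i, f' i ^ 2 = |s2 Q κ L g τ i| * pair W (e i) ^ 2 := by
      intro i
      rw [hf']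
      simp only
      rw [mul_pow, Real.sq_sqrt (abs_nonneg _), sq_abs]
    obtain ⟨h1, h2⟩ := cs f f' (fun i => by rw [hf]; positivity) (fun i => by rw [hf']; positivity)
      (hV1.congr fun i => (ef i).symm) (kW1.congr fun i => (ef' i).symm)
    have e1 : ∀ i, f i * f' i =
        ‖s2 Q κ L g τ i * pair V (e (σ2 σ i)) * pair W (e i)‖ := by
      intro i
      rw [hf, hf', norm_mul, norm_mul, Real.norm_eq_abs, Real.norm_eq_abs, Real.norm_eq_abs]
      simp only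
      have h3 := Real.mul_self_sqrt (abs_nonneg (s2 Q κ L g τ i))
      calc √|s2 Q κ L g τ i| * |pair V (e (σ2 σ i))| * (√|s2 Q κ L g τ i| * |pair W (e i)|)
          = (√|s2 Q κ L g τ i| * √|s2 Q κ L g τ i|) * |pair V (e (σ2 σ i))| * |pair W (e i)| := by
            ring
        _ = _ := by rw [h3]
    have h3 : Summable (fun i => ‖s2 Q κ L g τ i * pair V (e (σ2 σ i)) * pair W (e i)‖) :=
      h1.congr e1
    refine ⟨h3.of_norm, ?_⟩
    rw [← Real.norm_eq_abs]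
    refine (norm_tsum_le_tsum_norm h3).trans ?_
    rw [← tsum_congr e1]
    refine h2.trans ?_
    rw [tsum_congr ef, tsum_congr ef', hV2]
    have hQD : 0 ≤ Q * D := mul_nonneg hQ.le hD0
    calc √(∑' a, |s2 Q κ L g τ a| * pair V (e a) ^ 2) * √(∑' a, |s2 Q κ L g τ a| * pair W (e a) ^ 2)
        ≤ √(Q * D * dir (fieldOf V)) * √(Q * D * dir (fieldOf W)) :=
          mul_le_mul (Real.sqrt_le_sqrt kV2) (Real.sqrt_le_sqrt kW2) (Real.sqrt_nonneg _)
            (Real.sqrt_nonneg _)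
      _ = (√(Q * D) * √(Q * D)) * (√(dir (fieldOf V)) * √(dir (fieldOf W))) := by
          rw [Real.sqrt_mul hQD, Real.sqrt_mul hQD]
          ring
      _ = Q * D * (√(dir (fieldOf V)) * √(dir (fieldOf W))) := by
          rw [Real.mul_self_sqrt hQD]
  · -- the order
    intro m
    obtain ⟨D1, hD10, hD1⟩ := sob_le_sum hc hS h m
    obtain ⟨D2, hD20, hD2⟩ := sum_le_sob hc hS h (m + 2)
    refine ⟨D1 * (μ ^ (m + 2) * Q ^ 2 * D2), ?_⟩
    rintro v ⟨V, hV0, hV, rfl⟩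
    simp only [hipV _ hV0 hV]
    have hz := coef_rap h V hV
    set z' : Ix J → ℝ := fun i => s2 Q κ L g τ i * pair V (e (σ2 σ i)) with hz'def
    have hμ1 := mu_one hS
    -- comparison of the terms
    have hLpair : ∀ i : Ix J, L (gr g i) ≤ lam * L (gr g (σ2 σ i)) := by
      intro i
      have h1 := gr_σ2 hr i
      have hmono : ∀ {a b : ℕ}, a ≤ b → L a ≤ L b := by
        intro a b hab
        induction b, hab using Nat.le_induction with
        | base => exact le_rfl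
        | succ n _ ih => exact ih.trans (L_le hS n)
      have h2 : L (gr g i) ≤ L (2 * (gr g i / 2) + 1) := hmono (by omega)
      rw [hS.L_succ] at h2
      refine h2.trans (mul_le_mul_of_nonneg_left (hmono (by omega)) (by linarith [lam_one hS]))
    have hz'r : ∀ q : ℕ, ∃ Cq, ∀ a, L (gr g a) ^ q * |z' a| ≤ Cq := by
      intro q
      obtain ⟨Cq, hCq⟩ := hz (q + 1)
      refine ⟨lam ^ (q + 1) * Q * Cq, fun a => ?_⟩
      have h1 := hCq (σ2 σ a)
      have h2 := s2_le hS hr hQ a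
      have h3 := KL_le hS (gr g a)
      have h4 := hLpair a
      have h5 := hL1 (gr g a)
      have h6 := hL1 (gr g (σ2 σ a))
      have h7 := lam_one hS
      have h8 : |s2 Q κ L g τ a| ≤ Q * L (gr g a) :=
        h2.trans (mul_le_mul_of_nonneg_left h3 hQ.le)
      rw [hz'def]
      simp only
      rw [abs_mul]
      calc L (gr g a) ^ q * (|s2 Q κ L g τ a| * |pair V (e (σ2 σ a))|)
          ≤ L (gr g a) ^ q * ((Q * L (gr g a)) * |pair V (e (σ2 σ a))|) := by gcongr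
        _ = Q * L (gr g a) ^ (q + 1) * |pair V (e (σ2 σ a))| := by ring
        _ ≤ Q * (lam * L (gr g (σ2 σ a))) ^ (q + 1) * |pair V (e (σ2 σ a))| := by gcongr
        _ = lam ^ (q + 1) * Q * (L (gr g (σ2 σ a)) ^ (q + 1) * |pair V (e (σ2 σ a))|) := by
            rw [mul_pow]; ring
        _ ≤ lam ^ (q + 1) * Q * Cq := by gcongr
    have hg' := good_of_rap h hz'r
    have hOT : OT (syn e z') := syn_ot h hg'
    have hRap : Rap (syn e z') := rap_syn h hz'r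
    refine ⟨fieldOf (syn e z'), ⟨_, hOT, hRap, rfl⟩, ?_, ?_⟩
    · intro i
      rw [hipV _ hOT hRap, pair_syn_e h hg']
    · have esob : sob (m + 2) (fieldOf V) =
          ∑' k : Z3, (2 * Real.pi * ‖vec k‖) ^ (2 * ((m + 2 : ℕ) : ℝ)) * ‖V k‖ ^ 2 := by
        rw [sob_eq hF _ V hV0 hV]
        push_cast
        rfl
      rw [sob_eq hF _ _ hOT hRap, esob]
      refine (hD1 z' hz'r).trans ?_
      rw [mul_assoc]
      refine mul_le_mul_of_nonneg_left ?_ hD10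
      have hterm : ∀ a, (κ ^ gr g a * L (gr g a)) ^ m * z' a ^ 2 ≤
          μ ^ (m + 2) * Q ^ 2 * ((κ ^ gr g (σ2 σ a) * L (gr g (σ2 σ a))) ^ (m + 2) *
            pair V (e (σ2 σ a)) ^ 2) := by
        intro a
        have h1 := KL_one hS (gr g a)
        have h2 := KL_one hS (gr g (σ2 σ a))
        have h3 := KL_pair hS hr a
        have h4 := s2_le hS hr hQ a
        have h5 : z' a ^ 2 ≤ (Q * (κ ^ gr g a * L (gr g a))) ^ 2 * pair V (e (σ2 σ a)) ^ 2 := by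
          rw [hz'def]
          simp only
          rw [mul_pow, ← sq_abs (s2 Q κ L g τ a)]
          exact mul_le_mul_of_nonneg_right (pow_le_pow_left₀ (abs_nonneg _) h4 2) (sq_nonneg _)
        calc (κ ^ gr g a * L (gr g a)) ^ m * z' a ^ 2
            ≤ (κ ^ gr g a * L (gr g a)) ^ m *
              ((Q * (κ ^ gr g a * L (gr g a))) ^ 2 * pair V (e (σ2 σ a)) ^ 2) :=
              mul_le_mul_of_nonneg_left h5 (by positivity)
          _ = Q ^ 2 * ((κ ^ gr g a * L (gr g a)) ^ (m + 2) * pair V (e (σ2 σ a)) ^ 2) := by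
              rw [pow_add]; ring
          _ ≤ Q ^ 2 * ((μ * (κ ^ gr g (σ2 σ a) * L (gr g (σ2 σ a)))) ^ (m + 2) *
              pair V (e (σ2 σ a)) ^ 2) := by
              refine mul_le_mul_of_nonneg_left (mul_le_mul_of_nonneg_right ?_ (sq_nonneg _))
                (by positivity)
              exact pow_le_pow_left₀ (by linarith) h3 _
          _ = _ := by rw [mul_pow]; ring
      have hsum0 := wsum_a h hz (KL_pow hS (m + 2))
      have hsum1 : Summable (fun a => (κ ^ gr g (σ2 σ a) * L (gr g (σ2 σ a))) ^ (m + 2) *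
            pair V (e (σ2 σ a)) ^ 2) := (sE.summable_iff (f := fun a =>
              (κ ^ gr g a * L (gr g a)) ^ (m + 2) * pair V (e a) ^ 2)).2 hsum0
      have hsum2 : ∑' a, (κ ^ gr g (σ2 σ a) * L (gr g (σ2 σ a))) ^ (m + 2) *
            pair V (e (σ2 σ a)) ^ 2 = ∑' a, (κ ^ gr g a * L (gr g a)) ^ (m + 2) *
            pair V (e a) ^ 2 :=
        sE.tsum_eq (fun a => (κ ^ gr g a * L (gr g a)) ^ (m + 2) * pair V (e a) ^ 2)
      calc ∑' a, (κ ^ gr g a * L (gr g a)) ^ m * z' a ^ 2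
          ≤ ∑' a, μ ^ (m + 2) * Q ^ 2 * ((κ ^ gr g (σ2 σ a) * L (gr g (σ2 σ a))) ^ (m + 2) *
            pair V (e (σ2 σ a)) ^ 2) :=
            (wsum_a h hz'r (KL_pow hS m)).tsum_le_tsum hterm (hsum1.mul_left _)
        _ = μ ^ (m + 2) * Q ^ 2 * ∑' a, (κ ^ gr g a * L (gr g a)) ^ (m + 2) *
            pair V (e a) ^ 2 := by rw [tsum_mul_left, hsum2]
        _ ≤ μ ^ (m + 2) * Q ^ 2 * (D2 * ∑' k : Z3,
            (2 * Real.pi * ‖vec k‖) ^ (2 * ((m + 2 : ℕ) : ℝ)) * ‖V k‖ ^ 2) :=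
            mul_le_mul_of_nonneg_left (hD2 V hV0 hV) (by positivity)
        _ = _ := by ring

end Pool.Agent.Y692.S2
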