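import Pool.Agent.Y5.S2.Stm
import Pool.Agent.Y274.NE.B5

/-! Stage 6 (`Pool.Agent.Y5.S2`): elementary bounds for `Conc6`, `Sq6`, and the structure `Bs`
(copied from `Pool.Agent.Y993.NF.P1`). -/

open Set Filter Topology MeasureTheory

set_option autoImplicit false

namespace Pool.Agent.Y692.S2

open Pool.Agent.Y5 Pool.Agent.Y5.D Pool.Agent.Y5.E Pool.Agent.Y5.F Pool.Agent.Y5.S2
open Pool.Agent.Y274.NE (Bs)
open Pool.Agent.Y275.ND (finite_ball fib syn zl zr zlr zl_supp zr_supp zl_good zr_good)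

section params

variable {κ μ lam Λ M : ℝ} {L C ℓ : ℕ → ℝ} {B : ℕ → ℕ → ℝ}

lemma mu_one (hS : Sq6 κ μ lam Λ M L C ℓ B) : 1 ≤ μ := by
  have := hS.μ_big
  have : (1:ℝ) ≤ 10 ^ 30 := by norm_num
  linarith

lemma lam_big (hS : Sq6 κ μ lam Λ M L C ℓ B) : 10 ^ 30 ≤ lam := by
  have h1 := hS.μ_big
  have h2 := hS.μ_eq
  have h3 := hS.κ0
  have h4 := hS.κ1
  have h5 : (0:ℝ) < κ * lam := by
    have : (0:ℝ) < 10 ^ 30 := by norm_num
    linarith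
  have h6 : 0 < lam := pos_of_mul_pos_right h5 h3.le
  have h7 : κ * lam ≤ 1 * lam := mul_le_mul_of_nonneg_right h4 h6.le
  linarith

lemma lam_one (hS : Sq6 κ μ lam Λ M L C ℓ B) : 1 ≤ lam := by
  have := lam_big hS
  have : (1:ℝ) ≤ 10 ^ 30 := by norm_num
  linarith

lemma lam_le_exp (hS : Sq6 κ μ lam Λ M L C ℓ B) : lam ≤ Real.exp (μ / 1000) := by
  have h1 := hS.exp_big
  have h2 := hS.M_one
  have h3 := lam_one hS
  have h4 : (1:ℝ) ≤ 10 ^ 6 * M ^ 4 := by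
    have : (1:ℝ) ≤ M ^ 4 := one_le_pow₀ h2
    linarith
  have h5 : lam ≤ 10 ^ 6 * M ^ 4 * lam ^ 3 := by
    have h6 : lam ≤ lam ^ 3 := by
      calc lam = lam ^ 1 := (pow_one _).symm
        _ ≤ lam ^ 3 := pow_le_pow_right₀ h3 (by norm_num)
    calc lam = 1 * lam := (one_mul _).symm
      _ ≤ (10 ^ 6 * M ^ 4) * lam ^ 3 := mul_le_mul h4 h6 (by linarith) (by linarith)
  have h6 : lam ≤ (10 ^ 6 * M ^ 4 * lam ^ 3) ^ 10 := by
    calc lam ≤ (10 ^ 6 * M ^ 4 * lam ^ 3) := h5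
      _ = (10 ^ 6 * M ^ 4 * lam ^ 3) ^ 1 := (pow_one _).symm
      _ ≤ (10 ^ 6 * M ^ 4 * lam ^ 3) ^ 10 := pow_le_pow_right₀ (h3.trans h5) (by norm_num)
  have h7 : Real.exp (μ / 10 ^ 6) ≤ Real.exp (μ / 1000) := by
    have := mu_one hS
    apply Real.exp_le_exp.2
    linarith
  exact h6.trans (h1.trans h7)

lemma L_eq (hS : Sq6 κ μ lam Λ M L C ℓ B) (n : ℕ) : L n = lam ^ n * L 0 := by
  induction n with
  | zero => simp
  | succ n ih => rw [hS.L_succ, ih, pow_succ]; ring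

lemma L_one (hS : Sq6 κ μ lam Λ M L C ℓ B) (n : ℕ) : 1 ≤ L n := by
  rw [L_eq hS n]
  exact one_le_mul_of_one_le_of_one_le (one_le_pow₀ (lam_one hS)) hS.L0

lemma L_two (hS : Sq6 κ μ lam Λ M L C ℓ B) (n : ℕ) : 2 ^ n ≤ L n := by
  rw [L_eq hS n]
  have h1 : (2:ℝ) ^ n ≤ lam ^ n := by
    apply pow_le_pow_left₀ (by norm_num)
    have := lam_big hS
    have : (2:ℝ) ≤ 10 ^ 30 := by norm_num
    linarith
  have h2 := hS.L0
  have h3 : (0:ℝ) ≤ lam ^ n := pow_nonneg (by linarith [lam_one hS]) n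
  nlinarith

lemma L_le (hS : Sq6 κ μ lam Λ M L C ℓ B) (n : ℕ) : L n ≤ L (n + 1) := by
  rw [hS.L_succ]
  have h1 := lam_one hS
  have h2 := L_one hS n
  nlinarith

lemma L0_le (hS : Sq6 κ μ lam Λ M L C ℓ B) (n : ℕ) : L 0 ≤ L n := by
  induction n with
  | zero => exact le_rfl
  | succ n ih => exact ih.trans (L_le hS n)

lemma kpow (hS : Sq6 κ μ lam Λ M L C ℓ B) (n : ℕ) : 0 < κ ^ n ∧ κ ^ n ≤ 1 :=
  ⟨pow_pos hS.κ0 n, pow_le_one₀ hS.κ0.le hS.κ1⟩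

lemma KL_succ (hS : Sq6 κ μ lam Λ M L C ℓ B) (n : ℕ) :
    κ ^ (n + 1) * L (n + 1) = μ * (κ ^ n * L n) := by
  rw [hS.L_succ, hS.μ_eq, pow_succ]
  ring

lemma KL_one (hS : Sq6 κ μ lam Λ M L C ℓ B) (n : ℕ) : 1 ≤ κ ^ n * L n := by
  induction n with
  | zero => rw [pow_zero, one_mul]; exact hS.L0
  | succ n ih =>
    rw [KL_succ hS]
    exact one_le_mul_of_one_le_of_one_le (mu_one hS) ih

lemma KL_le (hS : Sq6 κ μ lam Λ M L C ℓ B) (n : ℕ) : κ ^ n * L n ≤ L n := by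
  have h1 := kpow hS n
  have h2 := L_one hS n
  nlinarith

end params

section conc

variable {J : Type} {ν κ μ lam Λ M : ℝ} {g : J → ℕ} {σ : J → J} {τ : J → ℝ}
  {F L C ℓ N G : ℕ → ℝ} {B : ℕ → ℕ → ℝ} {e : Ix J → Fam} {c : Ix J → Ix J → Ix J → ℝ}

lemma N_eq (hc : Conc6 ν κ μ lam g σ τ F L ℓ N G e) (hl : 0 ≤ lam) (n k : ℕ) :
    N (n + k) ≤ lam ^ k * N n := by
  induction k with
  | zero => simp
  | succ k ih =>
    have h1 := hc.N_up (n + k)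
    calc N (n + (k + 1)) ≤ lam * N (n + k) := h1
      _ ≤ lam * (lam ^ k * N n) := mul_le_mul_of_nonneg_left ih hl
      _ = lam ^ (k + 1) * N n := by rw [pow_succ]; ring

lemma N_one (hc : Conc6 ν κ μ lam g σ τ F L ℓ N G e) (hS : Sq6 κ μ lam Λ M L C ℓ B) (n : ℕ) :
    1 ≤ N n := by
  induction n with
  | zero => exact hc.N0
  | succ n ih =>
    have h1 := hc.N_grow n
    have h2 := hS.κ0
    have h3 := hS.κ1
    have h4 : 0 < κ * N (n + 1) := by linarith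
    have h5 : 0 < N (n + 1) := pos_of_mul_pos_right h4 h2.le
    nlinarith

lemma N_L (hc : Conc6 ν κ μ lam g σ τ F L ℓ N G e) (hS : Sq6 κ μ lam Λ M L C ℓ B) (n : ℕ) :
    N n ≤ N 0 * L n := by
  have h1 := N_eq hc (by linarith [lam_one hS]) 0 n
  rw [zero_add] at h1
  have h2 := L_eq hS n
  have h3 := hS.L0
  have h4 := N_one hc hS 0
  have h5 : (0:ℝ) ≤ lam ^ n := pow_nonneg (by linarith [lam_one hS]) n
  rw [h2]
  calc N n ≤ lam ^ n * N 0 := h1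
    _ = N 0 * (lam ^ n * 1) := by ring
    _ ≤ N 0 * (lam ^ n * L 0) := by gcongr

lemma gset_fin (hc : Conc6 ν κ μ lam g σ τ F L ℓ N G e) (n : ℕ) :
    {k : Z3 | ∃ a, gr g a = n ∧ e a k ≠ 0}.Finite := by
  refine (finite_ball (F n)).subset ?_
  rintro k ⟨a, ha, hk⟩
  have := (hc.fsupp a k hk).2
  rwa [ha] at this

/-- the `ℓ¹`-norm of a family with frequencies in the group `n` -/
lemma l1l2 (hc : Conc6 ν κ μ lam g σ τ F L ℓ N G e) (n : ℕ) (W : Fam)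
    (hW : ∀ k, W k ≠ 0 → ∃ a, gr g a = n ∧ e a k ≠ 0) :
    Summable (fun k => ‖W k‖) ∧ ∑' k, ‖W k‖ ≤ G n * √(∑' k, ‖W k‖ ^ 2) := by
  classical
  have hfin := gset_fin hc n
  set s := hfin.toFinset with hs
  have h0 : ∀ k, k ∉ s → W k = 0 := by
    intro k hk
    by_contra h1
    apply hk
    rw [hs, Set.Finite.mem_toFinset]
    exact hW k h1
  have h1 : ∑' k, ‖W k‖ = ∑ k ∈ s, ‖W k‖ :=
    tsum_eq_sum (fun k hk => by rw [h0 k hk, norm_zero])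
  have h2 : ∑' k, ‖W k‖ ^ 2 = ∑ k ∈ s, ‖W k‖ ^ 2 :=
    tsum_eq_sum (fun k hk => by rw [h0 k hk]; simp)
  refine ⟨summable_of_ne_finset_zero (s := s) (fun k hk => by rw [h0 k hk, norm_zero]), ?_⟩
  rw [h1, h2]
  have h3 : (∑ k ∈ s, ‖W k‖) ^ 2 ≤ (s.card : ℝ) * ∑ k ∈ s, ‖W k‖ ^ 2 := sq_sum_le_card_mul_sum_sq
  have h4 : (s.card : ℝ) ≤ G n ^ 2 := by
    have h5 := hc.cnt n
    rw [Set.ncard_eq_toFinset_card _ hfin] at h5
    exact h5
  have h6 : 0 ≤ ∑ k ∈ s, ‖W k‖ ^ 2 := Finset.sum_nonneg (fun _ _ => by positivity)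
  have h7 : (∑ k ∈ s, ‖W k‖) ^ 2 ≤ (G n * √(∑ k ∈ s, ‖W k‖ ^ 2)) ^ 2 := by
    rw [mul_pow, Real.sq_sqrt h6]
    exact h3.trans (mul_le_mul_of_nonneg_right h4 h6)
  exact le_of_sq_le_sq h7 (mul_nonneg (hc.G0 n) (Real.sqrt_nonneg _))

lemma e_l1 (hc : Conc6 ν κ μ lam g σ τ F L ℓ N G e) (a : Ix J) : ∑' k, ‖e a k‖ ≤ G (gr g a) := by
  have h1 := (l1l2 hc (gr g a) (e a) (fun k hk => ⟨a, rfl, hk⟩)).2
  have h2 := (hc.orth a a).1 rfl
  unfold pair at h2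
  simp only [real_inner_self_eq_norm_sq] at h2
  rw [h2, Real.sqrt_one, mul_one] at h1
  exact h1

lemma F_one (hc : Conc6 ν κ μ lam g σ τ F L ℓ N G e) (n : ℕ) : 1 ≤ F n := by
  have h1 : ∃ k, e (Sum.inl n) k ≠ 0 := by
    by_contra hcon
    push Not at hcon
    have h1 := (hc.orth (Sum.inl n) (Sum.inl n)).1 rfl
    unfold pair at h1
    simp [hcon] at h1
  obtain ⟨k, hk⟩ := h1
  have := hc.fsupp _ k hk
  exact this.1.trans this.2

lemma bs_of (hc : Conc6 ν κ μ lam g σ τ F L ℓ N G e) (hS : Sq6 κ μ lam Λ M L C ℓ B)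
    (hK : Ker g Λ M L C B c) : ∃ M' : ℕ → ℝ, Bs g L M' e := by
  obtain ⟨D1, hD1, hFL⟩ := hc.F_L
  obtain ⟨D2, hcard⟩ := hK.card
  obtain ⟨D3, hD3, hLF⟩ := hc.L_F
  obtain ⟨D4, hD4, hcmp⟩ := hc.F_cmp
  have hN0 := N_one hc hS 0
  have hex : 0 < Real.exp (μ / 1000) := Real.exp_pos _
  set D : ℝ := 1 + D1 + |D2| + Real.exp (μ / 1000) * N 0 with hD
  have hp : 0 ≤ Real.exp (μ / 1000) * N 0 := by positivity
  have hD0 : 1 ≤ D := by
    have := abs_nonneg D2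
    linarith
  have hL1 := L_one hS
  have hL2 : ∀ n, L n ≤ L n ^ 2 := fun n => by nlinarith [hL1 n]
  refine ⟨fun n => D * L n ^ 2, hc.ot, ?_, ?_, hc.disj, hc.orth, hc.compl, ?_, hK.fin, ?_, hL1,
    L_two hS, ?_, ?_⟩
  · intro a k hk
    have h1 := hc.fsupp a k hk
    refine ⟨h1.1, h1.2.trans ((hFL _).trans ?_)⟩
    have h2 := hL1 (gr g a)
    have h3 : D1 ≤ D := by
      have := abs_nonneg D2
      linarith
    exact mul_le_mul h3 (hL2 _) (by linarith) (by linarith)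
  · refine ⟨D3 * D4 ^ (5 / 2 : ℝ), by positivity, fun a k hk => ?_⟩
    have h1 := hLF (gr g a)
    have h2 := hcmp a k hk
    have h3 := (hc.fsupp a k hk).1
    have h4 := F_one hc (gr g a)
    calc L (gr g a) ≤ D3 * F (gr g a) ^ (5 / 2 : ℝ) := h1
      _ ≤ D3 * (D4 * ‖vec k‖) ^ (5 / 2 : ℝ) := by
          gcongr
      _ = D3 * (D4 ^ (5 / 2 : ℝ) * ‖vec k‖ ^ (5 / 2 : ℝ)) := by
          rw [Real.mul_rpow hD4.le (norm_nonneg _)]
      _ ≤ D3 * (D4 ^ (5 / 2 : ℝ) * ‖vec k‖ ^ (3 : ℝ)) := by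
          gcongr
          norm_num
      _ = D3 * D4 ^ (5 / 2 : ℝ) * ‖vec k‖ ^ 3 := by
          have : ‖vec k‖ ^ (3 : ℝ) = ‖vec k‖ ^ 3 := by
            rw [← Real.rpow_natCast]; norm_num
          rw [this]; ring
  · intro a
    have h1 := e_l1 hc a
    have h2 := hc.G_le (gr g a)
    have h3 := N_L hc hS (gr g a)
    calc ∑' k, ‖e a k‖ ≤ G (gr g a) := h1
      _ ≤ Real.exp (μ / 1000) * N (gr g a) := h2
      _ ≤ Real.exp (μ / 1000) * (N 0 * L (gr g a)) := by gcongr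
      _ = (Real.exp (μ / 1000) * N 0) * L (gr g a) := by ring
      _ ≤ D * L (gr g a) ^ 2 := by
          refine mul_le_mul ?_ (hL2 _) (by linarith [hL1 (gr g a)]) (by linarith)
          have := abs_nonneg D2
          linarith
  · intro m
    refine (hcard m).trans (mul_le_mul_of_nonneg_right ?_ (by positivity))
    have := le_abs_self D2
    linarith
  · intro n
    exact one_le_mul_of_one_le_of_one_le hD0 (one_le_pow₀ (hL1 n))
  · intro n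
    show D * L n ^ 2 ≤ D * L 0 ^ 2 * L n ^ 4
    have h1 : (1:ℝ) ≤ L 0 ^ 2 := one_le_pow₀ (hL1 0)
    have h2 : L n ^ 2 ≤ L n ^ 4 := pow_le_pow_right₀ (hL1 n) (by norm_num)
    calc D * L n ^ 2 = D * 1 * L n ^ 2 := by ring
      _ ≤ D * L 0 ^ 2 * L n ^ 4 := by gcongr

end conc

end Pool.Agent.Y692.S2
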